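import Pool.Agent.H572R4.Stmts

/-! Project H572-PI: `TaskC5`, `TaskC6`, `TaskC7` (normal forms). -/

set_option autoImplicit false

namespace Pool.Agent.H107R3.PI

open Pool.Agent.Helper446.CB Pool.Agent.H572R4

theorem c5 : TaskC5 := by
  intro k D hk hD
  have hk1 : ¬ Even (k + 1) := by
    rw [Nat.even_add_one]
    exact fun h => h hk
  obtain ⟨q, hq, hDq⟩ : Sig (k + 3 + 1) D := hD.2 hk1
  have h0 : Pi (k + 3) (fun x : ℕ => ∃ y < x.unpair.2 + 1, ¬ q (x.unpair.1, y)) := by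
    refine Pi.ex_lt (p := fun (x : ℕ) y => ¬ q (x.unpair.1, y)) ?_ (by fun_prop)
    exact Sig.not (hq.comp (f := fun x : ℕ × ℕ => (x.1.unpair.1, x.2)) (by fun_prop))
  refine ⟨fun x => ∃ y < x.unpair.2 + 1, ¬ q (x.unpair.1, y), ⟨fun _ => h0, fun h => absurd hk h⟩,
    ?_, ?_⟩
  · rintro n y y' hy ⟨z, hz, h⟩
    rw [Nat.unpair_pair] at hz h
    refine ⟨z, ?_, ?_⟩
    · rw [Nat.unpair_pair]
      exact lt_of_lt_of_le hz (Nat.add_le_add_right hy 1)
    · rw [Nat.unpair_pair]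
      exact h
  · intro n
    rw [hDq]
    constructor
    · rintro ⟨m, hm⟩
      refine ⟨m, m, ?_, ?_⟩
      · rw [Nat.unpair_pair]
        exact Nat.lt_succ_self m
      · rw [Nat.unpair_pair]
        exact hm
    · rintro ⟨y, z, -, hz⟩
      rw [Nat.unpair_pair] at hz
      exact ⟨z, hz⟩

theorem c6 : TaskC6 := by
  intro k D hk hD
  have hk1 : Even (k + 1) := by
    rw [Nat.even_add_one]
    exact hk
  obtain ⟨q, hq, hDq⟩ : Sig (k + 3 + 1) (fun n => ¬ D n) := hD.1 hk1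
  have h0 : Sig (k + 3) (fun x : ℕ => ∀ y < x.unpair.2 + 1, q (x.unpair.1, y)) := by
    refine Sig.all_lt (p := fun (x : ℕ) y => q (x.unpair.1, y)) ?_ (by fun_prop)
    exact hq.comp (f := fun x : ℕ × ℕ => (x.1.unpair.1, x.2)) (by fun_prop)
  refine ⟨fun x => ∀ y < x.unpair.2 + 1, q (x.unpair.1, y), ⟨fun h => absurd h hk, fun _ => h0⟩,
    ?_, ?_⟩
  · intro n y y' hy h z hz
    have h1 := h z (by
      rw [Nat.unpair_pair] at hz ⊢
      exact lt_of_lt_of_le hz (Nat.add_le_add_right hy 1))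
    rw [Nat.unpair_pair] at h1 ⊢
    exact h1
  · intro n
    have h1 : D n ↔ ∀ m, q (n, m) := by
      have := hDq n
      constructor
      · intro hn m
        by_contra hm
        exact (this.2 ⟨m, hm⟩) hn
      · intro h
        by_contra hn
        obtain ⟨m, hm⟩ := this.1 hn
        exact hm (h m)
    rw [h1]
    constructor
    · intro h y z _
      rw [Nat.unpair_pair]
      exact h z
    · intro h m
      have h2 := h m m (by
        rw [Nat.unpair_pair]
        exact Nat.lt_succ_self m)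
      rw [Nat.unpair_pair] at h2
      exact h2

theorem c7 : TaskC7 := by
  intro D hD
  obtain ⟨q, hq, hDq⟩ : Sig (2 + 1) (fun n => ¬ D n) := hD
  have hD1 : ∀ n, D n ↔ ∀ m, q (n, m) := by
    intro n
    have := hDq n
    constructor
    · intro hn m
      by_contra hm
      exact (this.2 ⟨m, hm⟩) hn
    · intro h
      by_contra hn
      obtain ⟨m, hm⟩ := this.1 hn
      exact hm (h m)
  have hF : Sig (1 + 1) (fun x : ℕ × ℕ => ∀ y < x.2 + 1, q (x.1, y)) := by
    refine Sig.all_lt (p := fun (x : ℕ × ℕ) y => q (x.1, y)) ?_ (by fun_prop)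
    exact hq.comp (f := fun x : (ℕ × ℕ) × ℕ => (x.1.1, x.2)) (by fun_prop)
  obtain ⟨r, hr, hFr⟩ := hF
  have hI : Sig 1 (fun x : (ℕ × ℕ) × ℕ => ∀ m < x.2 + 1, r (x.1, m)) := by
    refine Sig.all_lt (p := fun (x : (ℕ × ℕ) × ℕ) m => r (x.1, m)) ?_ (by fun_prop)
    exact hr.comp (f := fun x : ((ℕ × ℕ) × ℕ) × ℕ => (x.1.1, x.2)) (by fun_prop)
  have hall : ∀ n a, (∀ i, ∀ m < i + 1, r ((n, a), m)) ↔ ¬ ∀ y < a + 1, q (n, y) := by
    intro n a
    have hFa : (∀ y < a + 1, q (n, y)) ↔ ∃ m, ¬ r ((n, a), m) := hFr (n, a)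
    rw [hFa]
    constructor
    · rintro h ⟨m, hm⟩
      exact hm (h m m (Nat.lt_succ_self m))
    · intro h i m _
      by_contra hm
      exact h ⟨m, hm⟩
  refine ⟨fun n a i => ∀ m < i + 1, r ((n, a), m), ?_, ?_, ?_, ?_⟩
  · exact (sig_one.1 hI).of_eq fun x => Iff.rfl
  · intro n a i j hij h m hm
    exact h m (lt_of_lt_of_le hm (Nat.add_le_add_right hij 1))
  · intro n a b hab h
    rw [hall] at h ⊢
    exact fun h1 => h fun y hy => h1 y (lt_of_lt_of_le hy (Nat.add_le_add_right hab 1))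
  · intro n
    rw [hD1]
    constructor
    · intro h a
      rw [hall]
      exact fun h1 => h1 fun y _ => h y
    · intro h a
      have h1 := h a
      rw [hall, not_not] at h1
      exact h1 a (Nat.lt_succ_self a)

theorem taskC5 : TaskC5 := c5

theorem taskC6 : TaskC6 := c6

theorem taskC7 : TaskC7 := c7

theorem taskC5C6C7 : TaskC5 ∧ TaskC6 ∧ TaskC7 := ⟨c5, c6, c7⟩

end Pool.Agent.H107R3.PI
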