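import Pool.Agent.H572R4.Stmts

/-! Project H572-PI: `TaskE2` (complexity of `Good`). -/

set_option autoImplicit false

namespace Pool.Agent.H107R3.PI

open Pool.Agent.Helper446 Pool.Agent.Helper446.Defs Pool.Agent.Helper446.CB
  Pool.Agent.Helper446.CB.Ix Pool.Agent.H572R4

theorem cp_prefix {α : Type} [Primcodable α] {f g : α → List Bool} (hf : Computable f)
    (hg : Computable g) : ComputablePred fun a => f a <+: g a := by
  have hl : Computable fun a => (f a).length := Primrec.list_length.to_comp.comp hf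
  refine (RE.cp_eq hf (ctake hg hl)).of_eq fun a => ?_
  exact List.prefix_iff_eq_take.symm

/-- compatible strings -/
def cmp (ρ τ : List Bool) : Prop := ρ <+: τ ∨ τ <+: ρ

theorem cp_cmp {α : Type} [Primcodable α] {f g : α → List Bool} (hf : Computable f)
    (hg : Computable g) : ComputablePred fun a => cmp (f a) (g a) :=
  cp_or (cp_prefix hf hg) (cp_prefix hg hf)

/-- a point in a cylinder -/
def pt (τ : List Bool) : ℕ → Bool := fun i => (τ[i]?).getD false

theorem seg_pt (τ : List Bool) : seg (pt τ) τ.length = τ := by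
  apply List.ext_getElem?
  intro i
  by_cases hi : i < τ.length
  · rw [seg_getElem? _ hi]
    unfold pt
    rw [List.getElem?_eq_getElem hi]
    rfl
  · rw [List.getElem?_eq_none (by rw [seg_length]; omega), List.getElem?_eq_none (by omega)]

theorem le_M {l : List (List Bool)} {ρ : List Bool} (h : ρ ∈ l) :
    ρ.length ≤ (l.map List.length).sum :=
  List.single_le_sum (by simp) _ (List.mem_map.2 ⟨ρ, h, rfl⟩)

theorem cmp_of_mem {x : ℕ → Bool} {ρ τ : List Bool} (h : seg x ρ.length = ρ)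
    (h' : seg x τ.length = τ) : cmp ρ τ := by
  rcases le_total ρ.length τ.length with h1 | h1
  · exact Or.inl (eq_or_prefix h h' h1)
  · exact Or.inr (eq_or_prefix h' h h1)

theorem mem_of_cmp {x : ℕ → Bool} {ρ : List Bool} {m : ℕ} (hm : ρ.length ≤ m)
    (h : cmp ρ (seg x m)) : seg x ρ.length = ρ := by
  rcases h with h | h
  · exact (eq_seg_of_prefix h).symm
  · have h1 := h.length_le
    rw [seg_length] at h1
    have h2 : seg x m = ρ := h.eq_of_length (by rw [seg_length]; omega)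
    have h3 : ρ.length = m := le_antisymm hm h1
    rw [h3]
    exact h2

theorem sub1 (l' l : List (List Bool)) : cylS l' ⊆ cylS l ↔
    ∀ τ : List Bool, (∃ ρ ∈ l', ρ <+: τ) → ∃ ρ ∈ l, cmp ρ τ := by
  constructor
  · rintro h τ ⟨ρ, hρ, hpre⟩
    have hx := seg_pt τ
    have h1 : pt τ ∈ cylS l' := ⟨ρ, hρ, by
      have h2 : ρ <+: seg (pt τ) τ.length := by rw [hx]; exact hpre
      exact (eq_seg_of_prefix h2).symm⟩
    obtain ⟨ρ', hρ', h3⟩ := h h1
    exact ⟨ρ', hρ', cmp_of_mem h3 hx⟩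
  · rintro h x ⟨ρ, hρ, h1⟩
    obtain ⟨ρ', hρ', h2⟩ := h (seg x ((l.map List.length).sum + ρ.length))
      ⟨ρ, hρ, seg_prefix_iff.2 ⟨by omega, h1⟩⟩
    exact ⟨ρ', hρ', mem_of_cmp (le_trans (le_M hρ') (Nat.le_add_right _ _)) h2⟩

theorem sub2 (l l' : List (List Bool)) (e : ℕ) : cylS l ⊆ (idx e).1 ∪ cylS l' ↔
    ∀ τ : List Bool, (∃ ρ ∈ l, ρ <+: τ) → (¬ ∃ ρ ∈ l', cmp ρ τ) →
      ∀ k < τ.length + 1, ¬ Wd e (τ.take k) := by
  constructor
  · rintro h τ ⟨ρ, hρ, hpre⟩ hn k hk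
    have hx := seg_pt τ
    have h1 : pt τ ∈ cylS l := ⟨ρ, hρ, by
      have h2 : ρ <+: seg (pt τ) τ.length := by rw [hx]; exact hpre
      exact (eq_seg_of_prefix h2).symm⟩
    rcases h h1 with h2 | ⟨ρ', hρ', h3⟩
    · have h4 : ¬ Wd e (seg (pt τ) k) := h2 k
      have h5 : τ.take k = seg (pt τ) k := by
        conv_lhs => rw [← hx]
        exact seg_take _ (by omega)
      rw [h5]
      exact h4
    · exact absurd ⟨ρ', hρ', cmp_of_mem h3 hx⟩ hn
  · rintro h x ⟨ρ, hρ, h1⟩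
    by_cases hx : x ∈ cylS l'
    · exact Or.inr hx
    · left
      intro n
      have h2 := h (seg x ((l'.map List.length).sum + ρ.length + n))
        ⟨ρ, hρ, seg_prefix_iff.2 ⟨by omega, h1⟩⟩ (by
          rintro ⟨ρ', hρ', h3⟩
          exact hx ⟨ρ', hρ', mem_of_cmp (by have := le_M hρ'; omega) h3⟩) n
        (by rw [seg_length]; omega)
      rw [seg_take _ (by omega)] at h2
      exact h2

theorem inter1 (l' : List (List Bool)) (K : Set (ℕ → Bool)) : cylS l' ∩ K = ∅ ↔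
    ∀ σ ∈ l', ¬ σ ∈ Ext K := by
  rw [Set.eq_empty_iff_forall_notMem]
  constructor
  · rintro h σ hσ ⟨x, hx, hs⟩
    exact h x ⟨⟨σ, hσ, hs⟩, hx⟩
  · rintro h x ⟨⟨σ, hσ, hs⟩, hx⟩
    exact h σ hσ ⟨x, hx, hs⟩

theorem good_iff (hE1 : TaskE1) (cy : List (List Bool) → LB eX) (hcy : ∀ l, (cy l).1 = cylS l)
    (l : List (List Bool)) (e : ℕ) : Good (cy l) (ix e) ↔ ∃ l' : List (List Bool),
      (∀ σ ∈ l', ¬ σ ∈ Ext (idx e).1) ∧
      (∀ τ : List Bool, (∃ ρ ∈ l', ρ <+: τ) → ∃ ρ ∈ l, cmp ρ τ) ∧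
      ∀ τ : List Bool, (∃ ρ ∈ l, ρ <+: τ) → (¬ ∃ ρ ∈ l', cmp ρ τ) →
        ∀ k < τ.length + 1, ¬ Wd e (τ.take k) := by
  have hix : (ix e).1 = (idx e).1 := rfl
  have hbot : (⊥ : LB eX).1 = ∅ := rfl
  constructor
  · rintro ⟨d, hd, h1, h2⟩
    obtain ⟨l', hl'⟩ := (hE1 d).1 hd
    have h3 : cylS l' ∩ (idx e).1 = ∅ := by
      have := congrArg Subtype.val h1
      rw [lb_inf, hl', hix, hbot] at this
      exact this
    have h4 : cylS l = (cylS l ∩ (idx e).1) ∪ cylS l' := by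
      have := congrArg Subtype.val h2
      rw [lb_sup, lb_inf, hl', hix, hcy] at this
      exact this
    refine ⟨l', (inter1 _ _).1 h3, (sub1 _ _).1 ?_, (sub2 _ _ _).1 ?_⟩
    · intro x hx
      rw [h4]
      exact Or.inr hx
    · intro x hx
      rw [h4] at hx
      exact hx.imp (fun h => h.2) id
  · rintro ⟨l', h1, h2, h3⟩
    have h1' := (inter1 _ _).2 h1
    have h2' := (sub1 _ _).2 h2
    have h3' := (sub2 _ _ _).2 h3
    refine ⟨cy l', (hE1 _).2 ⟨l', hcy l'⟩, Subtype.ext ?_, Subtype.ext ?_⟩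
    · rw [lb_inf, hcy, hix, hbot]
      exact h1'
    · rw [lb_sup, lb_inf, hcy, hcy, hix]
      ext x
      constructor
      · intro hx
        rcases h3' hx with h | h
        · exact Or.inl ⟨hx, h⟩
        · exact Or.inr h
      · rintro (⟨h, -⟩ | h)
        · exact h
        · exact h2' h

theorem taskE2 : TaskE2 := by
  intro hE1 cy hcy
  refine Sig.of_iff (p := fun x : List (List Bool) × ℕ => ∃ l' : List (List Bool),
      (∀ σ ∈ l', ¬ σ ∈ Ext (idx x.2).1) ∧
      (∀ τ : List Bool, (∃ ρ ∈ l', ρ <+: τ) → ∃ ρ ∈ x.1, cmp ρ τ) ∧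
      ∀ τ : List Bool, (∃ ρ ∈ x.1, ρ <+: τ) → (¬ ∃ ρ ∈ l', cmp ρ τ) →
        ∀ k < τ.length + 1, ¬ Wd x.2 (τ.take k)) ?_ (fun x => (good_iff hE1 cy hcy x.1 x.2).symm)
  refine Sig.ex (n := 1) (p := fun (x : List (List Bool) × ℕ) (l' : List (List Bool)) =>
      (∀ σ ∈ l', ¬ σ ∈ Ext (idx x.2).1) ∧
      (∀ τ : List Bool, (∃ ρ ∈ l', ρ <+: τ) → ∃ ρ ∈ x.1, cmp ρ τ) ∧
      ∀ τ : List Bool, (∃ ρ ∈ x.1, ρ <+: τ) → (¬ ∃ ρ ∈ l', cmp ρ τ) →
        ∀ k < τ.length + 1, ¬ Wd x.2 (τ.take k)) ?_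
  refine Sig.and ?_ (Sig.and ?_ ?_)
  · refine Sig.succ ?_
    refine Sig.ball (p := fun (x : (List (List Bool) × ℕ) × List (List Bool)) (σ : List Bool) =>
      ¬ σ ∈ Ext (idx x.1.2).1) ?_ (l := fun x => x.2) (by fun_prop)
    have h := idx_ClF.ext.not
    exact h.comp (f := fun x : ((List (List Bool) × ℕ) × List (List Bool)) × List Bool =>
      (x.1.1.2, x.2)) (by fun_prop)
  · refine Pi.toSig (n := 1) (by norm_num) ?_
    refine Pi.all (n := 0) (p := fun (x : (List (List Bool) × ℕ) × List (List Bool))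
      (τ : List Bool) => (∃ ρ ∈ x.2, ρ <+: τ) → ∃ ρ ∈ x.1.1, cmp ρ τ) ?_
    refine Pi.imp (Sig.of_cp ?_) (Pi.of_cp ?_)
    · exact cp_bex (p := fun (x : ((List (List Bool) × ℕ) × List (List Bool)) × List Bool)
        (ρ : List Bool) => ρ <+: x.2) (cp_prefix (by fun_prop) (by fun_prop))
        (l := fun x => x.1.2) (by fun_prop)
    · exact cp_bex (p := fun (x : ((List (List Bool) × ℕ) × List (List Bool)) × List Bool)
        (ρ : List Bool) => cmp ρ x.2) (cp_cmp (by fun_prop) (by fun_prop))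
        (l := fun x => x.1.1.1) (by fun_prop)
  · refine Pi.toSig (n := 1) (by norm_num) ?_
    refine Pi.all (n := 0) (p := fun (x : (List (List Bool) × ℕ) × List (List Bool))
      (τ : List Bool) => (∃ ρ ∈ x.1.1, ρ <+: τ) → (¬ ∃ ρ ∈ x.2, cmp ρ τ) →
        ∀ k < τ.length + 1, ¬ Wd x.1.2 (τ.take k)) ?_
    refine Pi.imp (Sig.of_cp ?_) (Pi.imp (Sig.of_cp (ComputablePred.not ?_)) ?_)
    · exact cp_bex (p := fun (x : ((List (List Bool) × ℕ) × List (List Bool)) × List Bool)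
        (ρ : List Bool) => ρ <+: x.2) (cp_prefix (by fun_prop) (by fun_prop))
        (l := fun x => x.1.1.1) (by fun_prop)
    · exact cp_bex (p := fun (x : ((List (List Bool) × ℕ) × List (List Bool)) × List Bool)
        (ρ : List Bool) => cmp ρ x.2) (cp_cmp (by fun_prop) (by fun_prop))
        (l := fun x => x.1.2) (by fun_prop)
    · have hlen : Computable fun x : ((List (List Bool) × ℕ) × List (List Bool)) × List Bool =>
          x.2.length + 1 :=
        Computable.succ.comp (Primrec.list_length.to_comp.comp Computable.snd)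
      refine Pi.all_lt (p := fun (x : ((List (List Bool) × ℕ) × List (List Bool)) × List Bool)
        (k : ℕ) => ¬ Wd x.1.1.2 (x.2.take k)) ?_ hlen
      have hW : Sig 1 fun x : ℕ × List Bool => Wd x.1 x.2 := sig_one.2 wd_re
      have htk : Computable fun y : (((List (List Bool) × ℕ) × List (List Bool)) × List Bool) × ℕ =>
          y.1.2.take y.2 := ctake (by fun_prop) (by fun_prop)
      exact Sig.not (hW.comp (f := fun y : (((List (List Bool) × ℕ) × List (List Bool)) ×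
        List Bool) × ℕ => (y.1.1.1.2, y.1.2.take y.2)) (by fun_prop))

end Pool.Agent.H107R3.PI
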